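import Mathlib

set_option autoImplicit false
set_option linter.unusedSectionVars false
set_option linter.unusedSimpArgs false

/-!
# A sharply 3-transitive group of homeomorphisms of a compact space without a group topology

The group is a twisted form of `PGL₂(F)`, `F = 𝔽₄((t))`, acting on the projective line.
-/

namespace Pool.Agent.Results.MP_3e0647_al.NoGroupTopology

open Topology Filter OnePoint

/-- `M^(3)`: the ordered triples of pairwise distinct points of `M`. -/
def Triples (M : Type) : Type :=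
  {t : M × M × M // t.1 ≠ t.2.1 ∧ t.1 ≠ t.2.2 ∧ t.2.1 ≠ t.2.2}

/-- The subspace topology of `M × M × M`. -/
instance instTopTriples (M : Type) [TopologicalSpace M] : TopologicalSpace (Triples M) :=
  instTopologicalSpaceSubtype

/-- The coordinatewise action. -/
instance instSMulTriples (G M : Type) [Group G] [MulAction G M] : SMul G (Triples M) :=
  ⟨fun g t => ⟨(g • t.1.1, g • t.1.2.1, g • t.1.2.2),
    fun h => t.2.1 (MulAction.injective g h), fun h => t.2.2.1 (MulAction.injective g h),
    fun h => t.2.2.2 (MulAction.injective g h)⟩⟩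

/-- For any two triples there is exactly one group element mapping one to the other. -/
def SharplyThreeTransitive (G M : Type) [Group G] [MulAction G M] : Prop :=
  ∀ s t : Triples M, ∃! g : G, g • s = t

/-! ### The twisted group -/

/-- An involution `σ` of the field and a `σ`-invariant quadratic character `χ`. -/
structure Twist (K : Type) [Field K] where
  σ : K →+* K
  hσ : ∀ x, σ (σ x) = x
  χ : Kˣ →* Multiplicative (ZMod 2)
  hχ : ∀ x : Kˣ, χ (Units.map (σ : K →* K) x) = χ x

section Group

variable {K : Type} [Field K] [DecidableEq K] (T : Twist K)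

/-- Apply `σ` if `u ≠ 1`. -/
def tw (u : Multiplicative (ZMod 2)) (x : OnePoint K) : OnePoint K :=
  if u = 1 then x else x.map T.σ

theorem mul_eq_one_of_ne : ∀ u v : Multiplicative (ZMod 2), u ≠ 1 → v ≠ 1 → u * v = 1 := by
  decide

theorem inv_eq_self : ∀ u : Multiplicative (ZMod 2), u⁻¹ = u := by
  decide

theorem mul_self_eq : ∀ u : Multiplicative (ZMod 2), u * u = 1 := by
  decide

theorem map_map_σ (x : OnePoint K) : (x.map T.σ).map T.σ = x := by
  cases x with
  | infty => rfl
  | coe x => simp [T.hσ]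

theorem tw_one (x : OnePoint K) : tw T 1 x = x := by simp [tw]

theorem tw_tw (u v : Multiplicative (ZMod 2)) (x : OnePoint K) :
    tw T u (tw T v x) = tw T (u * v) x := by
  by_cases hu : u = 1
  · subst hu; simp [tw]
  · by_cases hv : v = 1
    · subst hv; simp [tw]
    · have h := mul_eq_one_of_ne u v hu hv
      simp only [tw, hu, hv, h, if_true, if_false]
      exact map_map_σ T x

/-- Twist a matrix. -/
noncomputable def gt (u : Multiplicative (ZMod 2)) (g : GL (Fin 2) K) : GL (Fin 2) K :=
  if u = 1 then g else Matrix.GeneralLinearGroup.map T.σ g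

theorem tw_smul (u : Multiplicative (ZMod 2)) (g : GL (Fin 2) K) (x : OnePoint K) :
    tw T u (g • x) = gt T u g • tw T u x := by
  by_cases hu : u = 1
  · subst hu; simp [tw, gt]
  · simp only [tw, gt, hu, if_false]
    exact OnePoint.map_smul T.σ g x

theorem χ_gt (u : Multiplicative (ZMod 2)) (g : GL (Fin 2) K) :
    T.χ (gt T u g).det = T.χ g.det := by
  by_cases hu : u = 1
  · subst hu; simp [gt]
  · simp only [gt, hu, if_false]
    rw [← T.hχ g.det]
    congr 1
    ext
    simp [Matrix.GeneralLinearGroup.map_det]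

/-- The twisted Moebius transformation of a matrix. -/
noncomputable def mob (g : GL (Fin 2) K) : Equiv.Perm (OnePoint K) where
  toFun x := g • tw T (T.χ g.det) x
  invFun x := tw T (T.χ g.det) (g⁻¹ • x)
  left_inv x := by
    simp only [inv_smul_smul, tw_tw, mul_self_eq, tw_one]
  right_inv x := by
    simp only [tw_tw, mul_self_eq, tw_one, smul_inv_smul]

theorem mob_apply (g : GL (Fin 2) K) (x : OnePoint K) :
    mob T g x = g • tw T (T.χ g.det) x := rfl

theorem mob_mul (g h : GL (Fin 2) K) : mob T g * mob T h = mob T (g * gt T (T.χ g.det) h) := by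
  ext x
  rw [Equiv.Perm.mul_apply, mob_apply, mob_apply, mob_apply, tw_smul, tw_tw, mul_smul]
  congr 3
  rw [map_mul, map_mul, χ_gt]

theorem mob_one : mob T (1 : GL (Fin 2) K) = 1 := by
  ext x
  rw [mob_apply, map_one, map_one, tw_one, one_smul]
  rfl

theorem mob_inv (g : GL (Fin 2) K) : (mob T g)⁻¹ = mob T (gt T (T.χ g.det) g⁻¹) := by
  rw [inv_eq_iff_mul_eq_one, mob_mul]
  have h : gt T (T.χ g.det) (gt T (T.χ g.det) g⁻¹) = g⁻¹ := by
    by_cases hu : T.χ g.det = 1
    · simp [gt, hu]
    · simp only [gt, hu, if_false]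
      ext i j
      exact T.hσ _
  rw [h, mul_inv_cancel, mob_one]

/-- The twisted group. -/
noncomputable def TG : Subgroup (Equiv.Perm (OnePoint K)) where
  carrier := Set.range (mob T)
  mul_mem' := by
    rintro _ _ ⟨g, rfl⟩ ⟨h, rfl⟩
    exact ⟨_, (mob_mul T g h).symm⟩
  one_mem' := ⟨1, mob_one T⟩
  inv_mem' := by
    rintro _ ⟨g, rfl⟩
    exact ⟨_, (mob_inv T g).symm⟩

/-- The element of the twisted group given by a matrix. -/
noncomputable def el (g : GL (Fin 2) K) : TG T := ⟨mob T g, ⟨g, rfl⟩⟩

theorem el_smul (g : GL (Fin 2) K) (x : OnePoint K) :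
    el T g • x = g • tw T (T.χ g.det) x := rfl

theorem exists_el (g : TG T) : ∃ h, g = el T h := by
  obtain ⟨g, h, rfl⟩ := g
  exact ⟨h, rfl⟩

theorem tw_infty (u : Multiplicative (ZMod 2)) : tw T u ∞ = ∞ := by
  unfold tw; split_ifs <;> rfl

theorem tw_zero (u : Multiplicative (ZMod 2)) : tw T u ((0 : K) : OnePoint K) = (0 : K) := by
  unfold tw; split_ifs <;> simp

theorem tw_coe_one (u : Multiplicative (ZMod 2)) : tw T u ((1 : K) : OnePoint K) = (1 : K) := by
  unfold tw; split_ifs <;> simp

/-- The base triple `(∞, 0, 1)`. -/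
def base : Triples (OnePoint K) :=
  ⟨(∞, ((0 : K) : OnePoint K), ((1 : K) : OnePoint K)), by
    simp [OnePoint.infty_ne_coe]⟩

theorem gl_transitive (p q r : OnePoint K) (h1 : p ≠ q) (h2 : p ≠ r) (h3 : q ≠ r) :
    ∃ g : GL (Fin 2) K, g • (∞ : OnePoint K) = p ∧ g • ((0 : K) : OnePoint K) = q ∧
      g • ((1 : K) : OnePoint K) = r := by
  cases p with
  | infty =>
    cases q with
    | infty => exact absurd rfl h1
    | coe q =>
      cases r with
      | infty => exact absurd rfl h2
      | coe r =>
        have hqr : r - q ≠ 0 := sub_ne_zero.2 fun h => h3 (by rw [h])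
        refine ⟨Matrix.GeneralLinearGroup.mkOfDetNeZero !![r - q, q; 0, 1] (by
          simpa [Matrix.det_fin_two] using hqr), ?_, ?_, ?_⟩
        · rw [OnePoint.smul_infty_eq_ite]; simp [Matrix.GeneralLinearGroup.mkOfDetNeZero]
        · rw [OnePoint.smul_some_eq_ite]; simp [Matrix.GeneralLinearGroup.mkOfDetNeZero]
        · rw [OnePoint.smul_some_eq_ite]; simp [Matrix.GeneralLinearGroup.mkOfDetNeZero]
  | coe p =>
    cases q with
    | infty =>
      cases r with
      | infty => exact absurd rfl h3
      | coe r =>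
        have hpr : p - r ≠ 0 := sub_ne_zero.2 fun h => h2 (by rw [h])
        refine ⟨Matrix.GeneralLinearGroup.mkOfDetNeZero !![p, r - p; 1, 0] (by
          simpa [Matrix.det_fin_two, sub_eq_zero] using hpr), ?_, ?_, ?_⟩
        · rw [OnePoint.smul_infty_eq_ite]; simp [Matrix.GeneralLinearGroup.mkOfDetNeZero]
        · rw [OnePoint.smul_some_eq_ite]; simp [Matrix.GeneralLinearGroup.mkOfDetNeZero]
        · rw [OnePoint.smul_some_eq_ite]; simp [Matrix.GeneralLinearGroup.mkOfDetNeZero]
    | coe q =>
      have hpq : p - q ≠ 0 := sub_ne_zero.2 fun h => h1 (by rw [h])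
      cases r with
      | infty =>
        refine ⟨Matrix.GeneralLinearGroup.mkOfDetNeZero !![p, -q; 1, -1] (by
          simp only [Matrix.det_fin_two_of]
          intro h; apply hpq; linear_combination -h), ?_, ?_, ?_⟩
        · rw [OnePoint.smul_infty_eq_ite]; simp [Matrix.GeneralLinearGroup.mkOfDetNeZero]
        · rw [OnePoint.smul_some_eq_ite]; simp [Matrix.GeneralLinearGroup.mkOfDetNeZero]
        · rw [OnePoint.smul_some_eq_ite]; simp [Matrix.GeneralLinearGroup.mkOfDetNeZero]
      | coe r =>
        have hpr : p - r ≠ 0 := sub_ne_zero.2 fun h => h2 (by rw [h])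
        have hqr : r - q ≠ 0 := sub_ne_zero.2 fun h => h3 (by rw [h])
        refine ⟨Matrix.GeneralLinearGroup.mkOfDetNeZero
          !![p * (r - q), q * (p - r); r - q, p - r] (by
          simp only [Matrix.det_fin_two_of]
          intro h
          have : (p - q) * ((r - q) * (p - r)) = 0 := by linear_combination h
          exact mul_ne_zero hpq (mul_ne_zero hqr hpr) this), ?_, ?_, ?_⟩
        · rw [OnePoint.smul_infty_eq_ite]
          simp [Matrix.GeneralLinearGroup.mkOfDetNeZero, hqr]
        · rw [OnePoint.smul_some_eq_ite]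
          simp [Matrix.GeneralLinearGroup.mkOfDetNeZero, hpr]
        · rw [OnePoint.smul_some_eq_ite]
          have h5 : r - q + (p - r) ≠ 0 := by
            intro h; apply hpq; linear_combination h
          simp only [Matrix.GeneralLinearGroup.mkOfDetNeZero]
          simp [hpq]
          rw [div_eq_iff hpq]
          ring

theorem exists_base (t : Triples (OnePoint K)) : ∃ g : TG T, g • (base : Triples (OnePoint K)) = t := by
  obtain ⟨g, h1, h2, h3⟩ := gl_transitive t.1.1 t.1.2.1 t.1.2.2 t.2.1 t.2.2.1 t.2.2.2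
  refine ⟨el T g, Subtype.ext (Prod.ext ?_ (Prod.ext ?_ ?_))⟩
  · change el T g • (∞ : OnePoint K) = _
    rw [el_smul, tw_infty, h1]
  · change el T g • ((0 : K) : OnePoint K) = _
    rw [el_smul, tw_zero, h2]
  · change el T g • ((1 : K) : OnePoint K) = _
    rw [el_smul, tw_coe_one, h3]

theorem base_stab (g : TG T) (hg : g • (base : Triples (OnePoint K)) = base) : g = 1 := by
  obtain ⟨h, rfl⟩ := exists_el T g
  have h1 : el T h • (∞ : OnePoint K) = ∞ := congrArg (fun t : Triples (OnePoint K) => t.1.1) hg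
  have h2 : el T h • ((0 : K) : OnePoint K) = (0 : K) :=
    congrArg (fun t : Triples (OnePoint K) => t.1.2.1) hg
  have h3 : el T h • ((1 : K) : OnePoint K) = (1 : K) :=
    congrArg (fun t : Triples (OnePoint K) => t.1.2.2) hg
  rw [el_smul, tw_infty, OnePoint.smul_infty_eq_self_iff] at h1
  rw [el_smul, tw_zero, OnePoint.smul_some_eq_ite] at h2
  rw [el_smul, tw_coe_one, OnePoint.smul_some_eq_ite] at h3
  have hd : h 1 1 ≠ 0 := by
    intro h0
    have := h.det_ne_zero
    rw [Matrix.det_fin_two] at this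
    exact this (by rw [h0, h1]; ring)
  have h4 : h 0 1 = 0 := by
    simp only [h1, zero_mul, zero_add, hd, if_false, mul_zero] at h2
    have := OnePoint.coe_injective h2
    rwa [div_eq_zero_iff, or_iff_left hd] at this
  have h5 : h 0 0 = h 1 1 := by
    simp only [h1, zero_mul, zero_add, hd, if_false, mul_one, h4, add_zero] at h3
    have := OnePoint.coe_injective h3
    rwa [div_eq_one_iff_eq hd] at this
  have hdet : h.det = (Units.mk0 (h 1 1) hd) * (Units.mk0 (h 1 1) hd) := by
    ext
    simp [Matrix.det_fin_two, h1, h4, h5]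
  have hχ : T.χ h.det = 1 := by rw [hdet, map_mul, mul_self_eq]
  apply Subtype.ext
  ext x
  change h • tw T (T.χ h.det) x = x
  rw [hχ, tw_one]
  cases x with
  | infty => rw [OnePoint.smul_infty_eq_self_iff, h1]
  | coe x =>
    rw [OnePoint.smul_some_eq_ite]
    simp only [h1, zero_mul, zero_add, hd, if_false, h4, add_zero, h5]
    rw [mul_div_cancel_left₀ _ hd]

theorem smul_smul_triples {G M : Type} [Group G] [MulAction G M] (g h : G) (t : Triples M) :
    (g * h) • t = g • h • t := by
  apply Subtype.ext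
  change ((g * h) • t.1.1, (g * h) • t.1.2.1, (g * h) • t.1.2.2) =
    (g • h • t.1.1, g • h • t.1.2.1, g • h • t.1.2.2)
  simp only [mul_smul]

theorem one_smul_triples {G M : Type} [Group G] [MulAction G M] (t : Triples M) :
    (1 : G) • t = t := by
  apply Subtype.ext
  change ((1 : G) • t.1.1, (1 : G) • t.1.2.1, (1 : G) • t.1.2.2) = t.1
  simp only [one_smul]

theorem sharply : SharplyThreeTransitive (TG T) (OnePoint K) := by
  intro s t
  obtain ⟨a, rfl⟩ := exists_base T s
  obtain ⟨b, rfl⟩ := exists_base T t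
  refine ⟨b * a⁻¹, ?_, ?_⟩
  · change (b * a⁻¹) • a • (base : Triples (OnePoint K)) = b • base
    rw [← smul_smul_triples, inv_mul_cancel_right]
  · intro c hc
    change c • a • (base : Triples (OnePoint K)) = b • base at hc
    have h1 : (b⁻¹ * (c * a)) • (base : Triples (OnePoint K)) = base := by
      rw [smul_smul_triples, smul_smul_triples, hc, ← smul_smul_triples, inv_mul_cancel,
        one_smul_triples]
    have h2 := base_stab T _ h1
    rw [inv_mul_eq_one] at h2
    rw [h2, mul_inv_cancel_right]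

end Group

/-! ### Continuity -/

section Topo

variable {K : Type} [Field K] [DecidableEq K] {Γ : Type} [LinearOrderedCommGroupWithZero Γ]
  [Valued K Γ]

theorem compact_ball (hO : IsCompact {x : K | (Valued.v x : Γ) ≤ 1}) (y : K) (hy : y ≠ 0) :
    IsCompact {x : K | (Valued.v x : Γ) ≤ Valued.v y} := by
  have h := hO.image (continuous_const_mul y)
  convert h using 1
  ext x
  constructor
  · intro hx
    refine ⟨y⁻¹ * x, ?_, by field_simp⟩
    change (Valued.v (y⁻¹ * x) : Γ) ≤ 1
    rw [map_mul, map_inv₀]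
    have h0 : (Valued.v y : Γ) ≠ 0 := (Valuation.ne_zero_iff _).2 hy
    calc (Valued.v y : Γ)⁻¹ * Valued.v x ≤ (Valued.v y : Γ)⁻¹ * Valued.v y := by
          gcongr; exact hx
      _ = 1 := inv_mul_cancel₀ h0
  · rintro ⟨z, hz, rfl⟩
    change (Valued.v (y * z) : Γ) ≤ Valued.v y
    rw [map_mul]
    calc (Valued.v y : Γ) * Valued.v z ≤ (Valued.v y : Γ) * 1 := by gcongr; exact hz
      _ = Valued.v y := mul_one _

omit [DecidableEq K] in
theorem nhds_ball {x : K} {s : Set K} (hs : s ∈ 𝓝 x) :
    ∃ γ : Γ, γ ≠ 0 ∧ {y : K | (Valued.v (y - x) : Γ) < γ} ⊆ s := by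
  obtain ⟨γ, hγ⟩ := Valued.mem_nhds.1 hs
  refine ⟨MonoidWithZeroHom.ValueGroup₀.embedding γ.1, by simp, fun y hy => hγ ?_⟩
  exact (Valued.v.restrict_lt_iff_lt_embedding).2 hy

omit [DecidableEq K] in
theorem ball_mem (x z : K) (hz : z ≠ 0) :
    {y : K | (Valued.v (y - x) : Γ) < Valued.v z} ∈ 𝓝 x := by
  refine Valued.mem_nhds.2 ⟨Units.mk0 (Valued.v.restrict z) (by
    intro h
    apply hz
    rw [← (Valuation.zero_iff (Valued.v : Valuation K Γ))]
    rw [← Valuation.embedding_restrict, h, map_zero]), fun y hy => ?_⟩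
  have h := (Valued.v.restrict_lt_iff_lt_embedding).1 hy
  rw [Units.val_mk0, Valuation.embedding_restrict] at h
  exact h

theorem tendsto_inv_infty (hO : IsCompact {x : K | (Valued.v x : Γ) ≤ 1})
    (hv : ∀ γ : Γ, ∃ y : K, (Valued.v y : Γ) = γ) :
    Tendsto (fun x : K => x⁻¹) (coclosedCompact K) (𝓝 0) := by
  intro s hs
  obtain ⟨γ, hγ0, hγ⟩ := nhds_ball hs
  obtain ⟨y, hy⟩ := hv γ⁻¹
  have hy0 : y ≠ 0 := by
    rintro rfl
    rw [map_zero] at hy
    exact inv_ne_zero hγ0 hy.symm
  have hc := compact_ball hO y hy0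
  rw [Filter.mem_map]
  refine Filter.mem_of_superset (hc.compl_mem_coclosedCompact_of_isClosed hc.isClosed) ?_
  intro x hx
  apply hγ
  change (Valued.v (x⁻¹ - 0) : Γ) < γ
  have h1 : (Valued.v y : Γ) < Valued.v x := not_le.1 hx
  have h2 : (Valued.v x : Γ) ≠ 0 := ne_of_gt (lt_of_le_of_lt zero_le h1)
  rw [hy] at h1
  rw [sub_zero, map_inv₀]
  rw [inv_lt_comm₀ (zero_lt_iff.2 h2) (zero_lt_iff.2 hγ0)]
  exact h1

theorem tendsto_inv_zero :
    Tendsto (fun x : K => ((x⁻¹ : K) : OnePoint K)) (𝓝[≠] 0) (𝓝 ∞) := by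
  refine (tendsto_coe_infty).comp ?_
  intro s hs
  obtain ⟨t, ⟨-, ht⟩, hts⟩ := hasBasis_coclosedCompact.mem_iff.1 hs
  have h1 : ∀ᶠ x in 𝓝 (0 : K), ∀ y ∈ t, x * y ≠ 1 := by
    refine ht.eventually_forall_of_forall_eventually ?_
    intro y hy
    have h2 : Tendsto (fun z : K × K => z.1 * z.2) (𝓝 (0, y)) (𝓝 (0 * y)) :=
      continuous_mul.tendsto (0, y)
    rw [zero_mul] at h2
    exact h2.eventually_ne zero_ne_one
  have h3 : ∀ᶠ x in 𝓝[≠] (0 : K), x ≠ 0 := eventually_mem_nhdsWithin
  rw [Filter.mem_map]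
  filter_upwards [h1.filter_mono nhdsWithin_le_nhds, h3] with x hx hx0
  apply hts
  intro hxt
  exact hx _ hxt (mul_inv_cancel₀ hx0)

/-- The inversion. -/
noncomputable def ww : GL (Fin 2) K :=
  Matrix.GeneralLinearGroup.mkOfDetNeZero !![0, 1; 1, 0] (by simp [Matrix.det_fin_two])

theorem ww_infty : (ww : GL (Fin 2) K) • (∞ : OnePoint K) = ((0 : K) : OnePoint K) := by
  rw [OnePoint.smul_infty_eq_ite]; simp [ww, Matrix.GeneralLinearGroup.mkOfDetNeZero]

theorem ww_coe (x : K) (hx : x ≠ 0) :
    (ww : GL (Fin 2) K) • (x : OnePoint K) = ((x⁻¹ : K) : OnePoint K) := by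
  rw [OnePoint.smul_some_eq_ite]; simp [ww, Matrix.GeneralLinearGroup.mkOfDetNeZero, hx]

theorem ww_zero : (ww : GL (Fin 2) K) • ((0 : K) : OnePoint K) = ∞ := by
  rw [OnePoint.smul_some_eq_ite]; simp [ww, Matrix.GeneralLinearGroup.mkOfDetNeZero]

theorem continuous_ww (hO : IsCompact {x : K | (Valued.v x : Γ) ≤ 1})
    (hv : ∀ γ : Γ, ∃ y : K, (Valued.v y : Γ) = γ) :
    Continuous fun x : OnePoint K => (ww : GL (Fin 2) K) • x := by
  rw [OnePoint.continuous_iff]
  constructor
  · rw [ww_infty]
    have h1 : Tendsto (fun x : K => ((x⁻¹ : K) : OnePoint K)) (coclosedCompact K)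
        (𝓝 ((0 : K) : OnePoint K)) :=
      (OnePoint.continuous_coe.tendsto 0).comp (tendsto_inv_infty hO hv)
    refine h1.congr' ?_
    have h2 : ({0} : Set K)ᶜ ∈ coclosedCompact K :=
      isCompact_singleton.compl_mem_coclosedCompact_of_isClosed isClosed_singleton
    filter_upwards [h2] with x hx
    exact (ww_coe x hx).symm
  · rw [continuous_iff_continuousAt]
    intro x
    by_cases hx : x = 0
    · subst hx
      have h0 : Tendsto (fun x : K => (ww : GL (Fin 2) K) • (x : OnePoint K)) (𝓝[≠] 0)
          (𝓝 ∞) := by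
        refine tendsto_inv_zero.congr' ?_
        filter_upwards [eventually_mem_nhdsWithin] with x hx
        exact (ww_coe x hx).symm
      rw [continuousAt_iff_punctured_nhds]
      rw [ww_zero]
      exact h0
    · have h1 : ContinuousAt (fun x : K => ((x⁻¹ : K) : OnePoint K)) x :=
        (OnePoint.continuous_coe.continuousAt).comp (continuousAt_inv₀ hx)
      refine h1.congr ?_
      filter_upwards [isOpen_ne.mem_nhds hx] with y hy
      exact (ww_coe y hy).symm

theorem continuous_upper (g : GL (Fin 2) K) (hg : g 1 0 = 0) :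
    Continuous fun x : OnePoint K => g • x := by
  have hd : g 1 1 ≠ 0 := by
    intro h0
    have := g.det_ne_zero
    rw [Matrix.det_fin_two] at this
    exact this (by rw [h0, hg]; ring)
  have ha : g 0 0 ≠ 0 := by
    intro h0
    have := g.det_ne_zero
    rw [Matrix.det_fin_two] at this
    exact this (by rw [h0, hg]; ring)
  have e : (fun x : OnePoint K => g • x) =
      ((Homeomorph.mulLeft₀ (g 0 0 / g 1 1) (div_ne_zero ha hd)).trans
        (Homeomorph.addRight (g 0 1 / g 1 1))).onePointCongr := by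
    funext x
    cases x with
    | infty =>
      rw [OnePoint.smul_infty_eq_self_iff.2 hg]
      rfl
    | coe x =>
      rw [OnePoint.smul_some_eq_ite]
      simp only [hg, zero_mul, zero_add, hd, if_false]
      change _ = ((g 0 0 / g 1 1 * x + g 0 1 / g 1 1 : K) : OnePoint K)
      congr 1
      field_simp
  rw [e]
  exact Homeomorph.continuous _

theorem continuous_gl (hO : IsCompact {x : K | (Valued.v x : Γ) ≤ 1})
    (hv : ∀ γ : Γ, ∃ y : K, (Valued.v y : Γ) = γ) (g : GL (Fin 2) K) :
    Continuous fun x : OnePoint K => g • x := by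
  by_cases hc : g 1 0 = 0
  · exact continuous_upper g hc
  · have hD := g.det_ne_zero
    rw [Matrix.det_fin_two] at hD
    let u : GL (Fin 2) K := Matrix.GeneralLinearGroup.mkOfDetNeZero
      !![-(g 0 0 * g 1 1 - g 0 1 * g 1 0) / g 1 0, g 0 0 / g 1 0; 0, 1] (by
        simp only [Matrix.det_fin_two_of, mul_one, mul_zero, sub_zero]
        exact div_ne_zero (neg_ne_zero.2 hD) hc)
    let v : GL (Fin 2) K := Matrix.GeneralLinearGroup.mkOfDetNeZero
      !![g 1 0, g 1 1; 0, 1] (by
        simpa only [Matrix.det_fin_two_of, mul_one, mul_zero, sub_zero] using hc)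
    have e : g = u * ww * v := by
      ext i j
      fin_cases i <;> fin_cases j <;>
        (simp [u, v, ww, Matrix.GeneralLinearGroup.mkOfDetNeZero, Matrix.mul_apply,
          Fin.sum_univ_two] <;> field_simp <;> ring)
    have h1 : Continuous fun x : OnePoint K => u • (ww : GL (Fin 2) K) • v • x :=
      (continuous_upper u (by simp [u, Matrix.GeneralLinearGroup.mkOfDetNeZero])).comp
        ((continuous_ww hO hv).comp
          (continuous_upper v (by simp [v, Matrix.GeneralLinearGroup.mkOfDetNeZero])))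
    have h2 : (fun x : OnePoint K => g • x) =
        fun x : OnePoint K => u • (ww : GL (Fin 2) K) • v • x := by
      funext x
      rw [← mul_smul, ← mul_smul, ← e]
    rw [h2]
    exact h1

theorem continuous_tw (T : Twist K) (hT : Continuous T.σ) (u : Multiplicative (ZMod 2)) :
    Continuous fun x : OnePoint K => tw T u x := by
  by_cases hu : u = 1
  · simp only [tw, hu, if_true]
    exact continuous_id
  · simp only [tw, hu, if_false]
    let e : K ≃ₜ K :=
      { toFun := T.σ
        invFun := T.σ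
        left_inv := T.hσ
        right_inv := T.hσ
        continuous_toFun := hT
        continuous_invFun := hT }
    have : (fun x : OnePoint K => x.map T.σ) = e.onePointCongr := by
      funext x
      cases x <;> rfl
    rw [this]
    exact Homeomorph.continuous _

theorem continuous_TG (hO : IsCompact {x : K | (Valued.v x : Γ) ≤ 1})
    (hv : ∀ γ : Γ, ∃ y : K, (Valued.v y : Γ) = γ) (T : Twist K) (hT : Continuous T.σ)
    (g : TG T) : Continuous fun x : OnePoint K => g • x := by
  obtain ⟨h, rfl⟩ := exists_el T g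
  exact (continuous_gl hO hv h).comp (continuous_tw T hT _)

end Topo

/-! ### The obstruction -/

theorem isInducing_val (M : Type) [TopologicalSpace M] :
    IsInducing (fun t : Triples M => t.1) := ⟨rfl⟩

section Obstruction

variable {K : Type} [Field K] [DecidableEq K] [TopologicalSpace K] [T2Space K]
  [LocallyCompactSpace K] [IsTopologicalRing K]

/-- The triple `(∞, 0, a)`. -/
def triple (a : K) (ha : a ≠ 0) : Triples (OnePoint K) :=
  ⟨(∞, ((0 : K) : OnePoint K), (a : OnePoint K)),
    OnePoint.infty_ne_coe _, OnePoint.infty_ne_coe _, fun h => ha (OnePoint.coe_injective h).symm⟩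

/-- The matrix `diag(a, 1)`. -/
noncomputable def dg (a : K) (ha : a ≠ 0) : GL (Fin 2) K :=
  Matrix.GeneralLinearGroup.mkOfDetNeZero !![a, 0; 0, 1] (by simpa [Matrix.det_fin_two] using ha)

theorem dg_infty (a : K) (ha : a ≠ 0) : dg a ha • (∞ : OnePoint K) = ∞ := by
  rw [OnePoint.smul_infty_eq_ite]; simp [dg, Matrix.GeneralLinearGroup.mkOfDetNeZero]

theorem dg_coe (a : K) (ha : a ≠ 0) (x : K) :
    dg a ha • (x : OnePoint K) = ((a * x : K) : OnePoint K) := by
  rw [OnePoint.smul_some_eq_ite]; simp [dg, Matrix.GeneralLinearGroup.mkOfDetNeZero]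

theorem dg_det (a : K) (ha : a ≠ 0) : (dg a ha).det = Units.mk0 a ha := by
  ext
  simp [dg, Matrix.GeneralLinearGroup.mkOfDetNeZero, Matrix.det_fin_two]

theorem no_topology (T : Twist K) (x : ℕ → K) (hx0 : ∀ n, x n ≠ 0)
    (hx : Tendsto x atTop (𝓝 1)) (hχ : ∀ n, T.χ (Units.mk0 (x n) (hx0 n)) ≠ 1)
    (ω : K) (hω0 : ω ≠ 0) (hω : T.σ ω ≠ ω) (τ : TopologicalSpace (TG T))
    (h0 : IsHomeomorph fun g : TG T => g • triple (1 : K) one_ne_zero)
    (h1 : IsHomeomorph fun g : TG T => g • triple ω hω0) : False := by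
  let g : ℕ → TG T := fun n => el T (dg (x n) (hx0 n))
  have hg : ∀ (n : ℕ) (a : K), g n • (a : OnePoint K) = ((x n * T.σ a : K) : OnePoint K) := by
    intro n a
    change el T (dg (x n) (hx0 n)) • (a : OnePoint K) = _
    rw [el_smul, dg_det]
    simp only [tw, hχ n, if_false, OnePoint.map_some]
    exact dg_coe _ _ _
  have hginf : ∀ n : ℕ, g n • (∞ : OnePoint K) = ∞ := by
    intro n
    change el T (dg (x n) (hx0 n)) • (∞ : OnePoint K) = _
    rw [el_smul, tw_infty]
    exact dg_infty _ _
  have hlim : ∀ a : K, Tendsto (fun n => g n • (a : OnePoint K)) atTop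
      (𝓝 ((T.σ a : K) : OnePoint K)) := by
    intro a
    simp only [hg]
    have h2 : Tendsto (fun n => x n * T.σ a) atTop (𝓝 (1 * T.σ a)) := hx.mul_const _
    rw [one_mul] at h2
    exact (OnePoint.continuous_coe.tendsto _).comp h2
  have hbase : Tendsto (fun n => g n • triple (1 : K) one_ne_zero) atTop
      (𝓝 ((1 : TG T) • triple (1 : K) one_ne_zero)) := by
    rw [(isInducing_val _).tendsto_nhds_iff]
    change Tendsto (fun n => (g n • (∞ : OnePoint K), g n • ((0 : K) : OnePoint K),
      g n • ((1 : K) : OnePoint K))) atTop (𝓝 ((1 : TG T) • (∞ : OnePoint K),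
        (1 : TG T) • ((0 : K) : OnePoint K), (1 : TG T) • ((1 : K) : OnePoint K)))
    simp only [one_smul]
    refine Tendsto.prodMk_nhds ?_ (Tendsto.prodMk_nhds ?_ ?_)
    · simp only [hginf]; exact tendsto_const_nhds
    · have := hlim 0
      rwa [map_zero] at this
    · have := hlim 1
      rwa [map_one] at this
  have hg1 : Tendsto g atTop (𝓝 1) := (h0.isInducing.tendsto_nhds_iff).2 hbase
  have h2 : Tendsto (fun n => g n • triple ω hω0) atTop (𝓝 ((1 : TG T) • triple ω hω0)) :=
    (h1.continuous.tendsto 1).comp hg1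
  rw [(isInducing_val _).tendsto_nhds_iff] at h2
  have h3 : Tendsto (fun n => g n • (ω : OnePoint K)) atTop
      (𝓝 ((1 : TG T) • (ω : OnePoint K))) :=
    ((continuous_snd.comp continuous_snd).tendsto _).comp h2
  rw [one_smul] at h3
  exact hω (OnePoint.coe_injective (tendsto_nhds_unique (hlim ω) h3))

end Obstruction

/-! ### Quadratic characters -/

theorem exists_char {A : Type} [CommGroup A] (w : ℕ → A)
    (hw : ∀ S : Finset ℕ, S.Nonempty → ∀ y : A, ∏ i ∈ S, w i ≠ y * y) :
    ∃ ψ : A →* Multiplicative (ZMod 2), ∀ i, ψ (w i) ≠ 1 := by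
  let N : Subgroup A := (powMonoidHom 2 : A →* A).range
  have h2 : ∀ x : Additive (A ⧸ N), (2 : ℕ) • x = 0 := by
    intro x
    obtain ⟨a, ha⟩ := QuotientGroup.mk_surjective (Additive.toMul x)
    have h3 : (Additive.toMul x) ^ 2 = 1 := by
      rw [← ha, ← QuotientGroup.mk_pow, QuotientGroup.eq_one_iff]
      exact ⟨a, rfl⟩
    exact h3
  letI : Module (ZMod 2) (Additive (A ⧸ N)) := AddCommGroup.zmodModule h2
  let v : ℕ → Additive (A ⧸ N) := fun i => Additive.ofMul (QuotientGroup.mk (w i))
  have hli : LinearIndependent (ZMod 2) v := by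
    rw [linearIndependent_iff']
    intro s g hg i hi
    by_contra hgi
    have hS : (s.filter fun j => g j ≠ 0).Nonempty := ⟨i, by simp [hi, hgi]⟩
    have hsum : ∑ j ∈ s.filter (fun j => g j ≠ 0), v j = 0 := by
      rw [← hg, Finset.sum_filter]
      apply Finset.sum_congr rfl
      intro j _
      by_cases h : g j = 0
      · simp [h]
      · have h1 : g j = 1 := by
          generalize g j = z at h
          revert z
          decide
        simp [h1]
    have h4 : (QuotientGroup.mk (∏ j ∈ s.filter (fun j => g j ≠ 0), w j) : A ⧸ N) = 1 := by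
      have h5 : Additive.toMul (∑ j ∈ s.filter (fun j => g j ≠ 0), v j) = 1 := by
        rw [hsum]; rfl
      rw [toMul_sum] at h5
      rw [← h5]
      exact map_prod (QuotientGroup.mk' N) _ _
    rw [QuotientGroup.eq_one_iff] at h4
    obtain ⟨y, hy⟩ := h4
    exact hw _ hS y (by rw [← hy]; exact pow_two y)
  let f0 := (Module.Basis.span hli).constr (ZMod 2) (fun _ => (1 : ZMod 2))
  obtain ⟨f, hf⟩ := LinearMap.exists_extend f0
  refine ⟨{ toFun := fun a => Multiplicative.ofAdd (f (Additive.ofMul (QuotientGroup.mk a)))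
            map_one' := by
              rw [QuotientGroup.mk_one, ofMul_one, map_zero, ofAdd_zero]
            map_mul' := fun a b => by
              rw [QuotientGroup.mk_mul, ofMul_mul, map_add, ofAdd_add] }, fun i => ?_⟩
  have h6 : f (v i) = 1 := by
    have h7 : f0 (Module.Basis.span hli i) = 1 := by
      simp only [f0, Module.Basis.constr_basis]
    rw [← hf] at h7
    have h8 : ((Module.Basis.span hli i : Submodule.span (ZMod 2) (Set.range v)) :
        Additive (A ⧸ N)) = v i := congrArg Subtype.val (Module.Basis.span_apply hli i)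
    rw [← h8]
    exact h7
  intro h
  change Multiplicative.ofAdd (f (v i)) = 1 at h
  rw [h6] at h
  exact absurd h (by decide)

/-! ### Laurent series over a finite field of characteristic two -/

section Laurent

open WithZero

variable {k : Type} [Field k]

/-- The valuation of a Laurent series. -/
noncomputable abbrev vv (x : LaurentSeries k) : ℤᵐ⁰ := Valued.v x

theorem v_C (c : k) (hc : c ≠ 0) : vv (HahnSeries.C c : LaurentSeries k) = 1 := by
  have hle : ∀ c : k, vv (HahnSeries.C c : LaurentSeries k) ≤ 1 := by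
    intro c
    exact (LaurentSeries.val_le_one_iff_eq_coe k _).2 ⟨PowerSeries.C c, PowerSeries.coe_C c⟩
  refine le_antisymm (hle c) ?_
  have h1 : vv (HahnSeries.C c : LaurentSeries k) * vv (HahnSeries.C c⁻¹ : LaurentSeries k) = 1 := by
    rw [← map_mul, ← map_mul, mul_inv_cancel₀ hc, map_one, map_one]
  calc (1 : ℤᵐ⁰) = vv (HahnSeries.C c : LaurentSeries k) * vv (HahnSeries.C c⁻¹ : LaurentSeries k) :=
        h1.symm
    _ ≤ vv (HahnSeries.C c : LaurentSeries k) * 1 := by gcongr; exact hle _
    _ = _ := mul_one _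

theorem v_single (n : ℤ) (c : k) (hc : c ≠ 0) :
    vv (HahnSeries.single n c : LaurentSeries k) = exp (-n) := by
  have h : (HahnSeries.single n c : LaurentSeries k) =
      HahnSeries.C c * HahnSeries.single n 1 := by
    rw [HahnSeries.C_apply, HahnSeries.single_mul_single, zero_add, mul_one]
  rw [h]
  change Valued.v (_ * _) = _
  rw [map_mul]
  have h1 := v_C c hc
  change Valued.v _ = _ at h1
  rw [h1, LaurentSeries.valuation_single_zpow, one_mul]

/-- Apply a field endomorphism to the coefficients. -/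
noncomputable def sig (φ : k →+* k) : LaurentSeries k →+* LaurentSeries k where
  toFun x := x.map φ
  map_one' := HahnSeries.map_one φ.toMonoidWithZeroHom
  map_mul' _ _ := HahnSeries.map_mul (φ : k →ₙ+* k)
  map_zero' := by ext n; simp
  map_add' _ _ := HahnSeries.map_add (φ : k →+ k)

theorem sig_coeff (φ : k →+* k) (x : LaurentSeries k) (n : ℤ) :
    (sig φ x).coeff n = φ (x.coeff n) := rfl

theorem sig_single (φ : k →+* k) (n : ℤ) (c : k) :
    sig φ (HahnSeries.single n c) = HahnSeries.single n (φ c) := by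
  ext m
  rw [sig_coeff]
  by_cases h : m = n
  · subst h; simp
  · rw [HahnSeries.coeff_single_of_ne h, HahnSeries.coeff_single_of_ne h, map_zero]

theorem v_sig_le (φ : k →+* k) (x : LaurentSeries k) : vv (sig φ x) ≤ vv x := by
  by_cases hx : x = 0
  · rw [hx, map_zero]
  · have h0 : vv x ≠ 0 := (Valuation.ne_zero_iff _).2 hx
    have h1 := (LaurentSeries.valuation_le_iff_coeff_lt_log_eq_zero k h0).1 (le_refl (vv x))
    refine (LaurentSeries.valuation_le_iff_coeff_lt_log_eq_zero k h0).2 fun n hn => ?_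
    rw [sig_coeff, h1 n hn, map_zero]

theorem exists_v (γ : ℤᵐ⁰) : ∃ y : LaurentSeries k, Valued.v y = γ :=
  LaurentSeries.valuation_surjective k γ

theorem continuous_sig (φ : k →+* k) : Continuous (sig φ) := by
  apply continuous_of_continuousAt_zero (sig φ)
  intro s hs
  rw [map_zero] at hs
  obtain ⟨γ, hγ0, hγ⟩ := nhds_ball hs
  obtain ⟨z, hz⟩ := exists_v (k := k) γ
  have hz0 : z ≠ 0 := by
    rintro rfl
    rw [map_zero] at hz
    exact hγ0 hz.symm
  rw [Filter.mem_map]
  filter_upwards [ball_mem 0 z hz0] with x hx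
  apply hγ
  change Valued.v (sig φ x - 0) < γ
  rw [sub_zero]
  change Valued.v (x - 0) < Valued.v z at hx
  rw [sub_zero, hz] at hx
  exact lt_of_le_of_lt (v_sig_le φ x) hx

theorem compact_O [Finite k] : IsCompact {x : LaurentSeries k | Valued.v x ≤ (1 : ℤᵐ⁰)} := by
  letI : TopologicalSpace k := ⊥
  haveI : DiscreteTopology k := ⟨rfl⟩
  let Φ : (ℕ → k) → LaurentSeries k := fun a => ((PowerSeries.mk a : PowerSeries k) : LaurentSeries k)
  have hr : {x : LaurentSeries k | Valued.v x ≤ (1 : ℤᵐ⁰)} = Set.range Φ := by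
    ext x
    constructor
    · intro hx
      obtain ⟨F, hF⟩ := (LaurentSeries.val_le_one_iff_eq_coe k x).1 hx
      refine ⟨fun n => PowerSeries.coeff n F, ?_⟩
      rw [← hF]
      change HahnSeries.ofPowerSeries ℤ k (PowerSeries.mk fun n => PowerSeries.coeff n F) = _
      congr 1
      ext n
      rw [PowerSeries.coeff_mk]
    · rintro ⟨a, rfl⟩
      exact (LaurentSeries.val_le_one_iff_eq_coe k _).2 ⟨_, rfl⟩
  rw [hr]
  apply isCompact_range
  rw [continuous_iff_continuousAt]
  intro a s hs
  obtain ⟨γ, hγ0, hγ⟩ := nhds_ball hs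
  set N : ℕ := (1 - log γ).toNat with hN
  have hNlt : exp (-(N : ℤ)) < γ := by
    rw [← lt_log_iff_exp_lt hγ0]
    omega
  rw [Filter.mem_map]
  have h1 : ∀ᶠ b in 𝓝 a, ∀ i ∈ Finset.range N, b i = a i := by
    rw [Filter.eventually_all_finset]
    intro i _
    have h2 : Tendsto (fun b : ℕ → k => b i) (𝓝 a) (𝓝 (a i)) := (continuous_apply i).tendsto a
    rw [nhds_discrete k] at h2
    exact tendsto_pure.1 h2
  filter_upwards [h1] with b hb
  apply hγ
  change Valued.v (Φ b - Φ a) < γ
  refine lt_of_le_of_lt ?_ hNlt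
  rw [LaurentSeries.valuation_le_iff_coeff_lt_eq_zero]
  intro n hn
  rw [HahnSeries.coeff_sub, sub_eq_zero]
  change ((PowerSeries.mk b : PowerSeries k) : LaurentSeries k).coeff n =
    ((PowerSeries.mk a : PowerSeries k) : LaurentSeries k).coeff n
  rw [PowerSeries.coeff_coe, PowerSeries.coeff_coe]
  split_ifs with h
  · rfl
  · rw [PowerSeries.coeff_mk, PowerSeries.coeff_mk]
    apply hb
    rw [Finset.mem_range]
    omega

theorem locallyCompact [Finite k] : LocallyCompactSpace (LaurentSeries k) := by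
  refine compact_O.locallyCompactSpace_of_mem_nhds_of_addGroup (x := 0) ?_
  have h := ball_mem (0 : LaurentSeries k) 1 one_ne_zero
  refine Filter.mem_of_superset h ?_
  intro x hx
  change Valued.v (x - 0) < Valued.v (1 : LaurentSeries k) at hx
  rw [sub_zero, map_one] at hx
  exact hx.le

end Laurent

/-! ### The character -/

section Final

open WithZero

variable {k : Type} [Field k]

theorem two_eq_zero [CharP k 2] : (2 : LaurentSeries k) = 0 := by
  have h : (2 : LaurentSeries k) = HahnSeries.C (2 : k) := by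
    rw [map_ofNat]
  rw [h, CharTwo.two_eq_zero, map_zero]

theorem vv_eq_one {x : LaurentSeries k} (h : vv (x - 1) < 1) : vv x = 1 := by
  have h1 := Valuation.map_one_add_of_lt (v := (Valued.v : Valuation (LaurentSeries k) ℤᵐ⁰)) h
  rwa [add_sub_cancel] at h1

theorem prod_val (w : ℕ → LaurentSeries k) (γ : ℕ → ℤᵐ⁰) (hw : ∀ i, vv (w i - 1) = γ i)
    (h1 : ∀ i, γ i < 1) (hinj : Function.Injective γ) (S : Finset ℕ) (hS : S.Nonempty) :
    ∃ i ∈ S, vv (∏ j ∈ S, w j - 1) = γ i := by
  induction hS using Finset.Nonempty.cons_induction with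
  | singleton a => exact ⟨a, by simp, by simpa using hw a⟩
  | cons a S ha hS ih =>
    obtain ⟨n, hn, hval⟩ := ih
    rw [Finset.prod_cons]
    set P := ∏ j ∈ S, w j with hP
    have hP1 : vv P = 1 := vv_eq_one (by rw [hval]; exact h1 n)
    have hne : γ a ≠ γ n := fun h => ha (by rw [hinj h]; exact hn)
    have e : w a * P - 1 = (w a - 1) * P + (P - 1) := by ring
    have hv1 : vv ((w a - 1) * P) = γ a := by
      change Valued.v (_ * _) = _
      rw [map_mul]
      have h2 := hw a
      change Valued.v _ = _ at h2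
      change Valued.v _ = _ at hP1
      rw [h2, hP1, mul_one]
    have hv2 : vv ((w a - 1) * P + (P - 1)) = max (γ a) (γ n) := by
      have := Valuation.map_add_of_distinct_val (v := (Valued.v : Valuation (LaurentSeries k) ℤᵐ⁰))
        (x := (w a - 1) * P) (y := P - 1) (by
          change vv _ ≠ vv _
          rw [hv1, hval]; exact hne)
      change vv _ = max (vv _) (vv _) at this
      rw [this, hv1, hval]
    rw [e, hv2]
    rcases le_total (γ a) (γ n) with h | h
    · exact ⟨n, Finset.mem_cons_of_mem hn, max_eq_right h⟩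
    · exact ⟨a, Finset.mem_cons_self a S, max_eq_left h⟩

theorem not_square [CharP k 2] (P : LaurentSeries k) (n : ℕ)
    (hP : vv (P - 1) = exp (-(2 * (n : ℤ) + 1))) (y : LaurentSeries k) : P ≠ y * y := by
  rintro rfl
  have e : y * y - 1 = (y - 1) * (y - 1) := by linear_combination (y - 1) * two_eq_zero (k := k)
  have h1 : vv (y - 1) * vv (y - 1) = exp (-(2 * (n : ℤ) + 1)) := by
    rw [← hP, e]
    exact (map_mul (Valued.v : Valuation (LaurentSeries k) ℤᵐ⁰) _ _).symm
  have h0 : vv (y - 1) ≠ 0 := by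
    intro h
    rw [h, mul_zero] at h1
    exact exp_ne_zero h1.symm
  have h2 := congrArg log h1
  rw [log_mul h0 h0, log_exp] at h2
  omega

variable [Finite k] [CharP k 2]

theorem exists_twist (φ : k →+* k) (hφ : ∀ x, φ (φ x) = x) (ω : k) (hω : φ ω ≠ ω) :
    ∃ (T : Twist (LaurentSeries k)) (x : ℕ → LaurentSeries k) (hx0 : ∀ n, x n ≠ 0),
      T.σ = sig φ ∧ Tendsto x atTop (𝓝 1) ∧ ∀ n, T.χ (Units.mk0 (x n) (hx0 n)) ≠ 1 := by
  have hω0 : ω ≠ 0 := by
    rintro rfl
    exact hω (map_zero φ)
  let x : ℕ → LaurentSeries k := fun n => 1 + HahnSeries.single (2 * (n : ℤ) + 1) ω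
  have hlt : ∀ n : ℕ, (exp (-(2 * (n : ℤ) + 1)) : ℤᵐ⁰) < 1 := by
    intro n
    rw [← exp_zero, exp_lt_exp]
    omega
  have hx1 : ∀ n, vv (x n - 1) = exp (-(2 * (n : ℤ) + 1)) := by
    intro n
    simp only [x, add_sub_cancel_left]
    exact v_single _ _ hω0
  have hxv : ∀ n, vv (x n) = 1 := fun n => vv_eq_one (by rw [hx1]; exact hlt n)
  have hx0 : ∀ n, x n ≠ 0 := by
    intro n h
    have := hxv n
    rw [h] at this
    change Valued.v (0 : LaurentSeries k) = 1 at this
    rw [map_zero] at this
    exact zero_ne_one this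
  let σU : (LaurentSeries k)ˣ →* (LaurentSeries k)ˣ :=
    Units.map (sig φ : LaurentSeries k →* LaurentSeries k)
  have hσσ : ∀ a : LaurentSeries k, sig φ (sig φ a) = a := by
    intro a
    ext n
    rw [sig_coeff, sig_coeff, hφ]
  have hσU : ∀ a, σU (σU a) = a := by
    intro a
    ext1
    exact hσσ _
  let θ : (LaurentSeries k)ˣ →* (LaurentSeries k)ˣ :=
    { toFun := fun a => σU a * a⁻¹
      map_one' := by simp
      map_mul' := fun a b => by
        rw [map_mul, mul_inv]
        exact mul_mul_mul_comm _ _ _ _ }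
  let w : ℕ → (LaurentSeries k)ˣ := fun n => θ (Units.mk0 (x n) (hx0 n))
  have hw1 : ∀ n, vv ((w n : LaurentSeries k) - 1) = exp (-(2 * (n : ℤ) + 1)) := by
    intro n
    have e : (w n : LaurentSeries k) - 1 = (sig φ (x n) - x n) * (x n)⁻¹ := by
      change sig φ (x n) * (x n)⁻¹ - 1 = _
      rw [sub_mul, mul_inv_cancel₀ (hx0 n)]
    have e2 : sig φ (x n) - x n = HahnSeries.single (2 * (n : ℤ) + 1) (φ ω - ω) := by
      simp only [x]
      rw [map_add, map_one, sig_single, add_sub_add_left_eq_sub]
      ext m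
      rw [HahnSeries.coeff_sub]
      by_cases h : m = 2 * (n : ℤ) + 1
      · rw [h, HahnSeries.coeff_single_same, HahnSeries.coeff_single_same,
          HahnSeries.coeff_single_same]
      · rw [HahnSeries.coeff_single_of_ne h, HahnSeries.coeff_single_of_ne h,
          HahnSeries.coeff_single_of_ne h, sub_zero]
    rw [e, e2]
    change Valued.v (_ * _) = _
    rw [map_mul, map_inv₀]
    have h3 := v_single (2 * (n : ℤ) + 1) (φ ω - ω) (sub_ne_zero.2 hω)
    have h4 := hxv n
    change Valued.v _ = _ at h3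
    change Valued.v _ = _ at h4
    rw [h3, h4, inv_one, mul_one]
  have hsq : ∀ S : Finset ℕ, S.Nonempty → ∀ y : (LaurentSeries k)ˣ, ∏ i ∈ S, w i ≠ y * y := by
    intro S hS y hy
    obtain ⟨i, -, hi⟩ := prod_val (fun n => (w n : LaurentSeries k))
      (fun n : ℕ => exp (-(2 * (n : ℤ) + 1))) hw1 hlt (by
        intro a b hab
        have := exp_injective hab
        omega) S hS
    refine not_square _ i hi (y : LaurentSeries k) ?_
    have h5 := congrArg (Units.val) hy
    rw [Units.coe_prod, Units.val_mul] at h5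
    exact h5
  obtain ⟨ψ, hψ⟩ := exists_char w hsq
  refine ⟨{ σ := sig φ, hσ := hσσ, χ := ψ.comp θ, hχ := ?_ }, x, hx0, rfl, ?_, hψ⟩
  · intro a
    change ψ (θ (σU a)) = ψ (θ a)
    have h6 : θ (σU a) = (θ a)⁻¹ := by
      change σU (σU a) * (σU a)⁻¹ = (σU a * a⁻¹)⁻¹
      rw [hσU, mul_inv, inv_inv, mul_comm]
    rw [h6, map_inv, inv_eq_self]
  · intro s hs
    obtain ⟨γ, hγ0, hγ⟩ := nhds_ball hs
    rw [Filter.mem_map, Filter.mem_atTop_sets]
    refine ⟨(1 - log γ).toNat, fun n hn => hγ ?_⟩
    change vv (x n - 1) < γ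
    rw [hx1, ← lt_log_iff_exp_lt hγ0]
    omega

end Final

/-- **Disproof.** There are a compact Hausdorff space `M` and a group `G` acting sharply
3-transitively on `M` by homeomorphisms such that no topology on `G` satisfies (i), (ii), (iii);
in fact already (iii) fails: there are two triples `s`, `t` such that for no topology on `G` are
the orbit maps at `s` and at `t` both homeomorphisms. -/
theorem result :
    ∃ (M : Type) (_ : TopologicalSpace M) (_ : CompactSpace M) (_ : T2Space M)
      (G : Type) (_ : Group G) (_ : MulAction G M),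
      (∀ g : G, IsHomeomorph fun x : M => g • x) ∧
      SharplyThreeTransitive G M ∧
      (∃ s t : Triples M, ¬ ∃ _ : TopologicalSpace G,
        (IsHomeomorph fun g : G => g • s) ∧ (IsHomeomorph fun g : G => g • t)) ∧
      ¬ ∃ _ : TopologicalSpace G,
        IsTopologicalGroup G ∧
        (Continuous fun p : G × Triples M => p.1 • p.2) ∧
        ∀ t : Triples M, IsHomeomorph fun g : G => g • t := by
  classical
  let k := GaloisField 2 2
  have hcard : Nat.card k = 4 := by
    have := GaloisField.card 2 2 two_ne_zero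
    simpa using this
  haveI : Finite k := Nat.finite_of_card_ne_zero (by rw [hcard]; norm_num)
  haveI : Fintype k := Fintype.ofFinite k
  have hφ : ∀ x : k, frobenius k 2 (frobenius k 2 x) = x := by
    intro x
    rw [frobenius_def, frobenius_def, ← pow_mul]
    have h := FiniteField.pow_card x
    rwa [← Nat.card_eq_fintype_card, hcard] at h
  obtain ⟨ω, hω⟩ : ∃ ω : k, frobenius k 2 ω ≠ ω := by
    by_contra hcon
    push Not at hcon
    have h1 : ∀ x : k, x = 0 ∨ x = 1 := by
      intro x
      have h2 := hcon x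
      rw [frobenius_def] at h2
      have h3 : x * (x - 1) = 0 := by linear_combination h2
      rcases mul_eq_zero.1 h3 with h | h
      · exact Or.inl h
      · exact Or.inr (sub_eq_zero.1 h)
    have h4 : (Finset.univ : Finset k) ⊆ {0, 1} := by
      intro x _
      simpa using h1 x
    have h5 := Finset.card_le_card h4
    have h6 : ({0, 1} : Finset k).card ≤ 2 := Finset.card_le_two
    rw [Finset.card_univ, ← Nat.card_eq_fintype_card, hcard] at h5
    omega
  obtain ⟨T, x, hx0, hσ, hx, hχ⟩ := exists_twist (frobenius k 2) hφ ω hω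
  haveI : LocallyCompactSpace (LaurentSeries k) := locallyCompact
  have hcont : ∀ g : TG T, Continuous fun x : OnePoint (LaurentSeries k) => g • x :=
    continuous_TG compact_O exists_v T (by rw [hσ]; exact continuous_sig _)
  have hω1 : T.σ (HahnSeries.C ω) ≠ HahnSeries.C ω := by
    rw [hσ, HahnSeries.C_apply, sig_single]
    intro h
    exact hω (HahnSeries.single_injective 0 h)
  have hω0 : (HahnSeries.C ω : LaurentSeries k) ≠ 0 := by
    intro h
    rw [h, map_zero] at hω1
    exact hω1 rfl
  have hno : ∀ τ : TopologicalSpace (TG T),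
      (IsHomeomorph fun g : TG T => g • triple (1 : LaurentSeries k) one_ne_zero) →
      (IsHomeomorph fun g : TG T => g • triple (HahnSeries.C ω : LaurentSeries k) hω0) → False :=
    fun τ h0 h1 => no_topology T x hx0 hx hχ _ hω0 hω1 τ h0 h1
  refine ⟨OnePoint (LaurentSeries k), inferInstance, inferInstance, inferInstance, TG T,
    inferInstance, inferInstance, fun g => ?_, sharply T,
    ⟨triple 1 one_ne_zero, triple (HahnSeries.C ω) hω0, ?_⟩, ?_⟩
  · let e : OnePoint (LaurentSeries k) ≃ₜ OnePoint (LaurentSeries k) :=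
      { toFun := fun x => g • x
        invFun := fun x => g⁻¹ • x
        left_inv := fun x => inv_smul_smul g x
        right_inv := fun x => smul_inv_smul g x
        continuous_toFun := hcont g
        continuous_invFun := hcont g⁻¹ }
    exact e.isHomeomorph
  · rintro ⟨τ, h0, h1⟩
    exact hno τ h0 h1
  · rintro ⟨τ, -, -, h⟩
    exact hno τ (h _) (h _)

end Pool.Agent.Results.MP_3e0647_al.NoGroupTopology
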